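import Pool.Agent.TH697.Tri.Query

set_option autoImplicit false

/-! # Triangle detection: the final bounds -/

namespace Pool.Agent.TH697.Tri

open Finset Pool.Agent.TH697.Row Pool.Agent.TH697.Form

variable {n E k : ℕ}

lemma hyp (hk : 3 * k ≤ n) (hE : k ^ 2 + 2 ≤ E) :
    ∀ i ∈ (univ.filter (fun i : Fin n => i.val < k)),
      ∃ (r : Fin k × Fin k → ℕ) (q : Fin k × Fin k → (Fin k × Fin k → Bool) → Fin n → Bool)
        (R : (Fin k × Fin k → Bool) → Fin n → Fin n → Bool),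
      (∀ t z z', (∀ s, r s < r t → z s = z' s) → q t z = q t z') ∧
      (∀ t z, edges (Function.update (R z) i (q t z)) ≤ E) ∧
      ∀ t z, tri (Function.update (R z) i (q t z)) = z t := by
  intro i hi
  have hi' := (mem_filter.1 hi).2
  obtain ⟨Q, R, h1, h2⟩ := tri_query (m := k) i (by omega)
  exact ⟨fun _ => 0, fun t _ => Q t, R, fun _ _ _ _ => rfl, fun t z => (h1 t z).trans hE, h2⟩

lemma card_I (hk : k ≤ n) : (univ.filter (fun i : Fin n => i.val < k)).card = k := by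
  rw [Fin.card_filter_val_lt]
  omega

/-- the side length -/
lemma exists_side (hE : 2500 ≤ E) (hn : 9 * E ≤ n ^ 2) : ∃ k : ℕ, 3 * k ≤ n ∧ k ≤ n ∧
    k ^ 2 + 2 ≤ E ∧ Real.sqrt E ≤ k + 1.02 ∧ (k : ℝ) ≤ Real.sqrt E := by
  refine ⟨Nat.sqrt (E - 2), ?_⟩
  obtain ⟨k, hk⟩ : ∃ k, k = Nat.sqrt (E - 2) := ⟨_, rfl⟩
  rw [← hk]
  have h1 : k * k ≤ E - 2 := by rw [hk]; exact Nat.sqrt_le _
  have h2 : E - 2 < (k + 1) * (k + 1) := by rw [hk]; exact Nat.lt_succ_sqrt _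
  have h3 : k ^ 2 + 2 ≤ E := by rw [sq]; omega
  have h4 : 3 * k ≤ n := by
    have : (3 * k) ^ 2 ≤ n ^ 2 := by
      calc (3 * k) ^ 2 = 9 * k ^ 2 := by ring
        _ ≤ 9 * E := by omega
        _ ≤ n ^ 2 := hn
    exact (Nat.pow_le_pow_iff_left (by norm_num)).1 this
  have hER : (2500 : ℝ) ≤ E := by exact_mod_cast hE
  refine ⟨h4, by omega, h3, ?_, ?_⟩
  · have h5 : (E : ℝ) ≤ ((k : ℝ) + 1) ^ 2 + 1 := by
      have : E ≤ (k + 1) * (k + 1) + 1 := by omega
      have h6 : (E : ℝ) ≤ ((k : ℝ) + 1) * ((k : ℝ) + 1) + 1 := by exact_mod_cast this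
      linarith
    have hk0 : (0 : ℝ) ≤ k := Nat.cast_nonneg k
    have hk48 : (48 : ℝ) ≤ k := by
      by_contra hcon
      push Not at hcon
      nlinarith
    rw [Real.sqrt_le_left (by positivity)]
    nlinarith
  · apply Real.le_sqrt_of_sq_le
    have : (k : ℝ) ^ 2 + 2 ≤ E := by exact_mod_cast h3
    linarith

lemma rpow_eq : (E : ℝ) ^ (3 / 2 : ℝ) = Real.sqrt E ^ 3 := by
  rw [Real.sqrt_eq_rpow, ← Real.rpow_natCast, ← Real.rpow_mul (Nat.cast_nonneg E)]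
  norm_num

/-- the bound for formulas -/
theorem formula_bound (hE : 2500 ≤ E) (hn : 9 * E ≤ n ^ 2)
    {Ω : Type} [Fintype Ω] (μ : Ω → ℝ) (hμ : IsProb μ)
    (F : Ω → Fml (Fin n) (fun _ => Fin n → Bool))
    (hF : ApproximatesOn μ (fun ω => (F ω).eval) (fun x => edges x ≤ E) tri) :
    (E : ℝ) ^ (3 / 2 : ℝ) / 60 ≤ expSize μ F := by
  obtain ⟨k, hk1, hk2, hk3, hk4, hk5⟩ := exists_side hE hn
  have h1 := formula_lower_on μ hμ F _ tri hF _ (hyp hk1 hk3)
  rw [card_I hk2] at h1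
  have hT : ((Fintype.card (Fin k × Fin k) : ℕ) : ℝ) = (k : ℝ) ^ 2 := by
    rw [Fintype.card_prod, Fintype.card_fin]; push_cast; ring
  rw [hT] at h1
  rw [rpow_eq]
  have hE' : (2500 : ℝ) ≤ E := by exact_mod_cast hE
  obtain ⟨y, hy⟩ : ∃ y, y = Real.sqrt E := ⟨_, rfl⟩
  rw [← hy] at hk4 hk5 ⊢
  have hy50 : 50 ≤ y := by
    rw [hy]
    apply Real.le_sqrt_of_sq_le
    linarith
  have hk : 0.979 * y ≤ k := by linarith
  have hksq : 0.958 * y ^ 2 ≤ (k : ℝ) ^ 2 := by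
    have h2 := pow_le_pow_left₀ (by positivity) hk 2
    calc 0.958 * y ^ 2 ≤ (0.979 * y) ^ 2 := by
          rw [mul_pow]
          exact mul_le_mul_of_nonneg_right (by norm_num) (by positivity)
      _ ≤ _ := h2
  have h3 : (0.0778 : ℝ) * y ^ 2 ≤ 49 / 600 * (k : ℝ) ^ 2 - 1 := by
    have h4 : (50 : ℝ) ^ 2 ≤ y ^ 2 := pow_le_pow_left₀ (by norm_num) hy50 2
    linarith
  have h5 : (0.979 * y) * (0.0778 * y ^ 2) ≤ (k : ℝ) * (49 / 600 * (k : ℝ) ^ 2 - 1) :=
    mul_le_mul hk h3 (by positivity) (by positivity)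
  have h6 : (0.979 * y) * (0.0778 * y ^ 2) = 0.0761662 * y ^ 3 := by ring
  have h7 : (0 : ℝ) ≤ y ^ 3 := by positivity
  linarith

/-- the bound for branching programs -/
theorem program_bound (hE : 10000 ≤ E) (hn : 9 * E ≤ n ^ 2)
    {Ω : Type} [Fintype Ω] (μ : Ω → ℝ) (hμ : IsProb μ) {s : ℕ}
    (B : Ω → Program (Fin n) (fun _ => Fin n → Bool) s)
    (hB : ApproximatesOn μ (fun ω => (B ω).eval) (fun x => edges x ≤ E) tri) :
    (E : ℝ) ^ (3 / 2 : ℝ) / (100 * Real.logb 2 E) ≤ s := by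
  obtain ⟨k, hk1, hk2, hk3, hk4, hk5⟩ := exists_side (by omega : 2500 ≤ E) hn
  have h1 := program_lower_on μ hμ B _ tri hB _ (hyp hk1 hk3)
  rw [card_I hk2] at h1
  have hT : ((Fintype.card (Fin k × Fin k) : ℕ) : ℝ) = (k : ℝ) ^ 2 := by
    rw [Fintype.card_prod, Fintype.card_fin]; push_cast; ring
  rw [hT] at h1
  rw [rpow_eq]
  have hE' : (10000 : ℝ) ≤ E := by exact_mod_cast hE
  have hE0 : (0 : ℝ) < E := by linarith
  obtain ⟨y, hy⟩ : ∃ y, y = Real.sqrt E := ⟨_, rfl⟩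
  have hyE : y ^ 2 = E := by rw [hy]; exact Real.sq_sqrt hE0.le
  rw [← hy] at hk4 hk5 ⊢
  have hy100 : 100 ≤ y := by
    rw [hy]
    apply Real.le_sqrt_of_sq_le
    linarith
  have hy0 : 0 < y := by linarith
  have hlog2 : 0 < Real.log 2 := Real.log_pos (by norm_num)
  have hlogE : 0 < Real.log E := Real.log_pos (by linarith)
  have hLg : Real.logb 2 E * Real.log 2 = Real.log E := by
    unfold Real.logb; field_simp
  obtain ⟨Lg, hLgd⟩ : ∃ Lg, Lg = Real.logb 2 E := ⟨_, rfl⟩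
  rw [← hLgd] at hLg ⊢
  have hLg0 : 0 < Lg := by
    by_contra hcon
    push Not at hcon
    nlinarith
  have hLgE : Lg ≤ 0.003 * y ^ 2 := by
    have h4 : Real.log ((E : ℝ) / 1024) ≤ E / 1024 - 1 :=
      Real.log_le_sub_one_of_pos (by positivity)
    rw [Real.log_div (by positivity) (by norm_num), show (1024 : ℝ) = 2 ^ 10 by norm_num,
      Real.log_pow] at h4
    push_cast at h4
    have h5 := Real.log_two_gt_d9
    have h6 := Real.log_two_lt_d9
    rw [hyE]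
    by_contra hcon
    push Not at hcon
    have h7 : 0.003 * (E : ℝ) * Real.log 2 < Real.log E := by
      rw [← hLg]
      exact mul_lt_mul_of_pos_right hcon hlog2
    nlinarith
  have hk : 0.989 * y ≤ k := by linarith
  have hkc : 0.967 * y ^ 3 ≤ (k : ℝ) ^ 3 := by
    have h2 := pow_le_pow_left₀ (by positivity) hk 3
    calc 0.967 * y ^ 3 ≤ (0.989 * y) ^ 3 := by
          rw [mul_pow]
          exact mul_le_mul_of_nonneg_right (by norm_num) (by positivity)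
      _ ≤ _ := h2
  by_contra hcon
  push Not at hcon
  rw [lt_div_iff₀ (by positivity)] at hcon
  have hs0 : (0 : ℝ) ≤ s := Nat.cast_nonneg s
  -- s + 2 ≤ y ^ 3
  have hLg1 : 1 ≤ Lg := by
    by_contra hc
    push Not at hc
    have h2 : Real.log E < Real.log 2 := by
      rw [← hLg]
      nlinarith
    have h3 := Real.log_le_log (by norm_num : (0 : ℝ) < 2) (by linarith : (2 : ℝ) ≤ E)
    linarith
  have hs3 : (s : ℝ) + 2 ≤ y ^ 3 := by
    have h2 : (s : ℝ) * 100 ≤ s * (100 * Lg) := by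
      apply mul_le_mul_of_nonneg_left _ hs0
      linarith
    have h3 : (100 : ℝ) ^ 3 ≤ y ^ 3 := pow_le_pow_left₀ (by norm_num) hy100 3
    linarith
  have hlogs : Real.log ((s : ℝ) + 2) ≤ 1.5 * Lg * Real.log 2 := by
    have h2 := Real.log_le_log (by positivity) hs3
    rw [Real.log_pow] at h2
    push_cast at h2
    have h3 : Real.log E = 2 * Real.log y := by
      rw [← hyE, Real.log_pow]; push_cast; ring
    rw [mul_assoc, hLg, h3]
    linarith
  have h8 : ((2 * s + k : ℝ)) * Real.log (s + 2) ≤ (2 * s + k) * (1.5 * Lg * Real.log 2) :=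
    mul_le_mul_of_nonneg_left hlogs (by positivity)
  have h9 : (k : ℝ) * (49 / 600 * (k : ℝ) ^ 2 * Real.log 2) =
      49 / 600 * (k : ℝ) ^ 3 * Real.log 2 := by ring
  rw [h9] at h1
  have h10 : 49 / 600 * (k : ℝ) ^ 3 * Real.log 2 ≤ ((2 * s + k) * (1.5 * Lg)) * Real.log 2 := by
    refine (h1.trans h8).trans (le_of_eq (by ring))
  have h11 := le_of_mul_le_mul_right h10 hlog2
  have h12 : (k : ℝ) * Lg ≤ y * (0.003 * y ^ 2) := mul_le_mul hk5 hLgE hLg0.le hy0.le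
  have h13 : (0 : ℝ) < y ^ 3 := by positivity
  nlinarith

end Pool.Agent.TH697.Tri
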