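import Pool.Agent.TH697.Row.Promise
import Pool.Agent.TH697.Row.GraphDefs

set_option autoImplicit false

/-! # Triangles in graphs given by rows of the adjacency matrix: definitions -/

namespace Pool.Agent.TH697.Tri

open Finset Pool.Agent.TH697.Row

open Classical in
/-- The graph given by the rows `x 0, …, x (n - 1)` has a triangle. -/
noncomputable def tri {n : ℕ} (x : Fin n → Fin n → Bool) : Bool :=
  decide (∃ a b c, (graph x).Adj a b ∧ (graph x).Adj b c ∧ (graph x).Adj a c)

/-- The number of edges of the graph given by the rows. -/
def edges {n : ℕ} (x : Fin n → Fin n → Bool) : ℕ :=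
  (univ.filter (fun p : Fin n × Fin n => p.1 < p.2 ∧ x p.1 p.2 = true)).card

end Pool.Agent.TH697.Tri
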