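import Pool.Agent.TH697.Tri.Defs
import Pool.Agent.TH697.Row.Graph
import Pool.Agent.TH697.Form.Build

set_option autoImplicit false

/-! # Triangle detection: one row can query the edges between two sets -/

namespace Pool.Agent.TH697.Tri

open Finset Pool.Agent.TH697.Row Pool.Agent.TH697.Form

section

variable {m w : ℕ}

/-- the vertices -/
abbrev Vx (m w : ℕ) : Type := (Fin m ⊕ Fin m) ⊕ Fin w

/-- the bipartite graph with the edges `z` -/
def base (w : ℕ) (z : Fin m × Fin m → Bool) : SimpleGraph (Vx m w) where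
  Adj a b := ∃ s t, z (s, t) = true ∧
    ((a = Sum.inl (Sum.inl s) ∧ b = Sum.inl (Sum.inr t)) ∨
      (a = Sum.inl (Sum.inr t) ∧ b = Sum.inl (Sum.inl s)))
  symm := ⟨by
    rintro a b ⟨s, t, h, h'⟩
    exact ⟨s, t, h, h'.symm.imp (fun h => ⟨h.2, h.1⟩) (fun h => ⟨h.2, h.1⟩)⟩⟩
  loopless := ⟨by
    rintro a ⟨s, t, -, h | h⟩
    · have := h.1.symm.trans h.2
      simp at this
    · have := h.1.symm.trans h.2
      simp at this⟩

/-- the neighbours of the special vertex -/
def ask (w : ℕ) (t : Fin m × Fin m) : Finset (Vx m w) :=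
  {Sum.inl (Sum.inl t.1), Sum.inl (Sum.inr t.2)}

lemma base_pair (z : Fin m × Fin m → Bool) (t : Fin m × Fin m) {v u : Vx m w}
    (hv : v ∈ ask w t) (hu : u ∈ ask w t) (h : (base w z).Adj v u) : z t = true := by
  unfold ask at hv hu
  rw [mem_insert, mem_singleton] at hv hu
  obtain ⟨s, r, hz, hh⟩ := h
  rcases hv with rfl | rfl <;> rcases hu with rfl | rfl <;> simp at hh
  · obtain ⟨rfl, rfl⟩ := hh; exact hz
  · obtain ⟨rfl, rfl⟩ := hh; exact hz

lemma base_no_tri (z : Fin m × Fin m → Bool) {a b c : Vx m w} (h1 : (base w z).Adj a b)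
    (h2 : (base w z).Adj b c) (h3 : (base w z).Adj a c) : False := by
  obtain ⟨s, t, -, h1⟩ := h1
  obtain ⟨s', t', -, h2⟩ := h2
  obtain ⟨s'', t'', -, h3⟩ := h3
  rcases h1 with ⟨rfl, rfl⟩ | ⟨rfl, rfl⟩ <;> rcases h2 with ⟨e2, rfl⟩ | ⟨e2, rfl⟩ <;>
    simp at e2 h3

theorem tri_add (z : Fin m × Fin m → Bool) (t : Fin m × Fin m) :
    (∃ a b c, (addVertex (base w z) (ask w t)).Adj a b ∧ (addVertex (base w z) (ask w t)).Adj b c ∧
      (addVertex (base w z) (ask w t)).Adj a c) ↔ z t = true := by
  constructor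
  · rintro ⟨a, b, c, h1, h2, h3⟩
    rcases a with _ | a <;> rcases b with _ | b <;> rcases c with _ | c
    · exact absurd h1 (by simp [addVertex])
    · exact absurd h1 (by simp [addVertex])
    · exact absurd h3 (by simp [addVertex])
    · exact base_pair z t (v := b) (u := c) h1 h3 h2
    · exact absurd h2 (by simp [addVertex])
    · exact base_pair z t (v := a) (u := c) h1 h2 h3
    · exact base_pair z t (v := a) (u := b) h3 h2 h1
    · exact (base_no_tri (w := w) z (a := a) (b := b) (c := c) h1 h2 h3).elim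
  · intro h
    refine ⟨none, some (Sum.inl (Sum.inl t.1)), some (Sum.inl (Sum.inr t.2)), ?_, ?_, ?_⟩
    · show Sum.inl (Sum.inl t.1) ∈ ask w t
      simp [ask]
    · show (base w z).Adj _ _
      exact ⟨t.1, t.2, h, Or.inl ⟨rfl, rfl⟩⟩
    · show Sum.inl (Sum.inr t.2) ∈ ask w t
      simp [ask]

open Classical in
/-- The bits can be queried with one row, and the graphs have few edges. -/
theorem tri_query {n : ℕ} (i : Fin n) (hi : i.val + 2 * m < n) :
    ∃ (Q : Fin m × Fin m → Fin n → Bool) (R : (Fin m × Fin m → Bool) → Fin n → Fin n → Bool),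
      (∀ t z, edges (Function.update (R z) i (Q t)) ≤ m ^ 2 + 2) ∧
      ∀ t z, tri (Function.update (R z) i (Q t)) = z t := by
  obtain ⟨w, hw⟩ : ∃ w, 2 * m + w + 1 = n := ⟨n - 1 - 2 * m, by omega⟩
  let A : Finset (Vx m w) := univ.image (fun s : Fin m ⊕ Fin m => Sum.inl s)
  have hA : A.card ≤ 2 * m := by
    refine card_image_le.trans ?_
    rw [card_univ, Fintype.card_sum, Fintype.card_fin]; omega
  obtain ⟨e, he, heA⟩ := exists_label (V := Vx m w) (n := n)
    (by simp only [Fintype.card_sum, Fintype.card_fin]; omega) i A (by omega)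
  have hask : ∀ t : Fin m × Fin m, ask w t ⊆ A := by
    intro t u hu
    unfold ask at hu
    rw [mem_insert, mem_singleton] at hu
    rcases hu with rfl | rfl
    · exact mem_image.2 ⟨_, mem_univ _, rfl⟩
    · exact mem_image.2 ⟨_, mem_univ _, rfl⟩
  have hadj : ∀ t z, ∀ a b : Option (Vx m w),
      (graph (Function.update (rows e (base w z)) i (query e (ask w t)))).Adj (e a) (e b)
        ↔ (addVertex (base w z) (ask w t)).Adj a b := by
    intro t z a b
    rw [← he]
    exact graph_rows e (hask t) (fun v hv => by rw [he]; exact heA v hv) a b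
  refine ⟨fun t => query e (ask w t), fun z => rows e (base w z), ?_, ?_⟩
  · intro t z
    -- the pairs
    let U : Finset (Sym2 (Fin n)) := (univ.image (fun p : Fin m × Fin m =>
      s(e (some (Sum.inl (Sum.inl p.1))), e (some (Sum.inl (Sum.inr p.2)))))) ∪
      ((ask w t).image (fun v => s(e none, e (some v))))
    have hU : U.card ≤ m ^ 2 + 2 := by
      refine (card_union_le _ _).trans (Nat.add_le_add ?_ ?_)
      · refine card_image_le.trans ?_
        rw [card_univ, Fintype.card_prod, Fintype.card_fin, sq]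
      · refine card_image_le.trans ?_
        unfold ask
        exact card_le_two
    refine le_trans ?_ hU
    apply card_le_card_of_injOn (fun p => s(p.1, p.2))
    · rintro ⟨a, b⟩ hab
      simp only [coe_filter, mem_univ, true_and, Set.mem_ofPred_eq] at hab
      have h1 : (graph (Function.update (rows e (base w z)) i (query e (ask w t)))).Adj a b :=
        Or.inl hab
      obtain ⟨a', rfl⟩ := e.surjective a
      obtain ⟨b', rfl⟩ := e.surjective b
      rw [hadj] at h1
      rw [mem_coe, mem_union, mem_image, mem_image]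
      rcases a' with _ | a' <;> rcases b' with _ | b'
      · exact absurd h1 (by simp [addVertex])
      · exact Or.inr ⟨b', h1, rfl⟩
      · exact Or.inr ⟨a', h1, Sym2.eq_swap⟩
      · obtain ⟨s, r, -, h2⟩ := (show (base w z).Adj a' b' from h1)
        rcases h2 with ⟨rfl, rfl⟩ | ⟨rfl, rfl⟩
        · exact Or.inl ⟨(s, r), mem_univ _, rfl⟩
        · exact Or.inl ⟨(s, r), mem_univ _, Sym2.eq_swap⟩
    · rintro ⟨a, b⟩ hab ⟨c, d⟩ hcd h
      simp only [coe_filter, mem_univ, true_and, Set.mem_ofPred_eq] at hab hcd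
      simp only [Sym2.eq_iff] at h
      rcases h with ⟨rfl, rfl⟩ | ⟨rfl, rfl⟩
      · rfl
      · exact absurd hab.1 (not_lt.2 hcd.1.le)
  · intro t z
    unfold tri
    rw [Bool.eq_iff_iff, decide_eq_true_iff, ← tri_add (w := w) z t]
    constructor
    · rintro ⟨a, b, c, h1, h2, h3⟩
      refine ⟨e.symm a, e.symm b, e.symm c, ?_, ?_, ?_⟩
      · rw [← hadj, Equiv.apply_symm_apply, Equiv.apply_symm_apply]; exact h1
      · rw [← hadj, Equiv.apply_symm_apply, Equiv.apply_symm_apply]; exact h2
      · rw [← hadj, Equiv.apply_symm_apply, Equiv.apply_symm_apply]; exact h3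
    · rintro ⟨a, b, c, h1, h2, h3⟩
      exact ⟨e a, e b, e c, (hadj _ _ _ _).2 h1, (hadj _ _ _ _).2 h2, (hadj _ _ _ _).2 h3⟩

end

/-- the upper bound -/
theorem upper {n : ℕ} (hn : 3 ≤ n) :
    ∃ G : Fml (Fin n) (fun _ => Fin n → Bool), (∀ x, G.eval x = tri x) ∧ G.size ≤ 2 * n ^ 3 := by
  classical
  obtain ⟨G, h1, h2⟩ := exists_or (ι := Fin n) (D := fun _ => Fin n → Bool)
    ((univ : Finset (Fin n × Fin n × Fin n)).filter (fun p => p.1 < p.2.1 ∧ p.2.1 < p.2.2))
    ⟨(⟨0, by omega⟩, ⟨1, by omega⟩, ⟨2, by omega⟩), by simp⟩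
    (fun p => .gate (fun a b => a && b) (.leaf p.1 (fun d => d p.2.1 && d p.2.2))
      (.leaf p.2.1 (fun d => d p.2.2)))
  refine ⟨G, fun x => ?_, ?_⟩
  · unfold tri
    rw [Bool.eq_iff_iff, decide_eq_true_iff, h1]
    constructor
    · rintro ⟨⟨i, j, k⟩, hijk, h⟩
      simp only [Fml.eval, Bool.and_eq_true] at h
      simp only [mem_filter, mem_univ, true_and] at hijk
      exact ⟨i, j, k, Or.inl ⟨hijk.1, h.1.1⟩, Or.inl ⟨hijk.2, h.2⟩,
        Or.inl ⟨hijk.1.trans hijk.2, h.1.2⟩⟩
    · rintro ⟨a, b, c, h1, h2, h3⟩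
      have key : ∀ a b c : Fin n, a < b → b < c → (graph x).Adj a b → (graph x).Adj b c →
          (graph x).Adj a c → ∃ p ∈ (univ : Finset (Fin n × Fin n × Fin n)).filter
            (fun p => p.1 < p.2.1 ∧ p.2.1 < p.2.2), ((Fml.gate (fun a b => a && b)
            (.leaf p.1 (fun d => d p.2.1 && d p.2.2)) (.leaf p.2.1 (fun d => d p.2.2)) :
              Fml (Fin n) (fun _ => Fin n → Bool))).eval x = true := by
        intro a b c hab hbc h1 h2 h3
        refine ⟨(a, b, c), by simp [hab, hbc], ?_⟩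
        simp only [Fml.eval, Bool.and_eq_true]
        have e1 : x a b = true := by
          rcases h1 with h | h
          · exact h.2
          · exact absurd h.1 (not_lt.2 hab.le)
        have e2 : x b c = true := by
          rcases h2 with h | h
          · exact h.2
          · exact absurd h.1 (not_lt.2 hbc.le)
        have e3 : x a c = true := by
          rcases h3 with h | h
          · exact h.2
          · exact absurd h.1 (not_lt.2 (hab.trans hbc).le)
        exact ⟨⟨e1, e3⟩, e2⟩
      rcases lt_or_gt_of_ne h1.ne with hab | hab <;> rcases lt_or_gt_of_ne h2.ne with hbc | hbc <;>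
        rcases lt_or_gt_of_ne h3.ne with hac | hac
      · exact key a b c hab hbc h1 h2 h3
      · exact absurd (hab.trans hbc) (not_lt.2 hac.le)
      · exact key a c b hac hbc h3 h2.symm h1
      · exact key c a b hac hab h3.symm h1 h2.symm
      · exact key b a c hab hac h1.symm h3 h2
      · exact key b c a hbc hac h2 h3.symm h1.symm
      · exact absurd (hbc.trans hab) (not_lt.2 hac.le)
      · exact key c b a hbc hab h2.symm h1.symm h3.symm
  · rw [h2]
    simp only [Fml.size, sum_const, smul_eq_mul]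
    have h3 := card_filter_le (univ : Finset (Fin n × Fin n × Fin n))
      (fun p => p.1 < p.2.1 ∧ p.2.1 < p.2.2)
    rw [card_univ, Fintype.card_prod, Fintype.card_prod, Fintype.card_fin] at h3
    calc _ ≤ (n * (n * n)) * (1 + 1) := Nat.mul_le_mul_right _ h3
      _ = 2 * n ^ 3 := by ring

end Pool.Agent.TH697.Tri
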